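import Pool.Agent.helper17.MK.Spec

/-! Row mk:PW: pointwise inequalities. -/

set_option autoImplicit false

namespace Pool.Agent.MK

open Finset Real Pool.Agent.helper39.MT Pool.Agent.helper85.FC

lemma PW_sg_empty (l : Finset ℕ → ℝ) : Sg l ∅ = l ∅ := by
  unfold Sg
  rw [powerset_empty, sum_singleton]

lemma PW_ts {ι : Type} [Fintype ι] [DecidableEq ι] {k : ℕ} (pr : ι → ℕ) (m : Fin k)
    (e : ι → Option (Fin k)) (h : ∀ p, e p ≠ some m) : TS pr m e = ∅ := by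
  unfold TS
  have h1 : cls e m = ∅ := by
    unfold cls
    rw [filter_eq_empty_iff]
    intro p _
    exact h p
  rw [h1, image_empty]

lemma PW_mem (a b : ℝ) (p : ℕ) (hb : 0 ≤ b) :
    p ∈ RLS.PP a b ↔ p.Prime ∧ a < (p : ℝ) ∧ (p : ℝ) ≤ b := by
  unfold RLS.PP
  rw [mem_filter, mem_range, Nat.lt_succ_iff, Nat.le_floor_iff hb]
  tauto

theorem PW (h1 : MP_stmt) (h2 : TP_stmt) : PW_stmt := by
  intro ι _ _ k pr ζ l₀ w v z y L L' m m' e hm hw hwv hvz hzy hl hpos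
  have hv0 : 0 ≤ v := by linarith
  have hz0 : 0 ≤ z := by linarith
  have hy0 : 0 ≤ y := by linarith
  obtain ⟨_, hM1, _, hM2⟩ := h1 L z
  have hlam : ∀ T : Finset ℕ, 0 ≤ Sg (RLS.lam true L') T := fun T => (RLS.SI_all L' T).1
  have hlam1 : 1 ≤ Sg (RLS.lam true L') ∅ := (RLS.SI_all L' ∅).2.1 rfl
  have hc3 : ∀ T : Finset ℕ, 0 ≤ Sg c3 T := fun T => by
    rw [h2.1 T]
    exact Nat.cast_nonneg _
  have hl0 : ∀ T : Finset ℕ, 0 ≤ Sg l₀ (T ∩ RLS.PP 1 w) := fun T => hpos _ inter_subset_right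
  refine ⟨?_, ?_, ?_⟩
  · unfold XB SU
    exact mul_nonneg (mul_nonneg (sq_nonneg _) (hl0 _))
      (mul_nonneg (mul_nonneg (hlam _) (hlam _)) (hc3 _))
  · intro he
    have hT : TS pr m e = ∅ := PW_ts pr m e he
    unfold XA XB SU
    rw [hT, empty_union, union_idempotent, union_idempotent, empty_inter]
    set T := TS pr m' e with hTdef
    have hc : 0 ≤ FF pr ζ e ^ 2 * Sg l₀ (T ∩ RLS.PP 1 w) := mul_nonneg (sq_nonneg _) (hl0 _)
    have hbr : 0 ≤ Sg (lM L z) (T ∩ RLS.PP w y) +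
        (Sg (RLS.lam true L') ∅ * Sg (RLS.lam true L') (T ∩ RLS.PP w v) *
          Sg c3 (T ∩ RLS.PP z y)) / 2 := by
      have h3 := hM2 (T ∩ RLS.PP w y)
      have h4 : 0 ≤ Sg (RLS.lam true L') ∅ * Sg (RLS.lam true L') (T ∩ RLS.PP w v) *
          Sg c3 (T ∩ RLS.PP z y) := mul_nonneg (mul_nonneg (hlam _) (hlam _)) (hc3 _)
      by_cases hf : (T ∩ RLS.PP w y).filter (fun p : ℕ => (p : ℝ) ≤ z) = ∅
      · rw [if_pos hf] at h3
        rw [filter_eq_empty_iff] at hf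
        have h5 : T ∩ RLS.PP w v = ∅ := by
          rw [eq_empty_iff_forall_notMem]
          intro p hp
          rw [mem_inter, PW_mem w v p hv0] at hp
          obtain ⟨hp1, hp2, hp3, hp4⟩ := hp
          refine hf (mem_inter.2 ⟨hp1, (PW_mem w y p hy0).2 ⟨hp2, hp3, ?_⟩⟩) ?_
          · linarith
          · linarith
        have h6 : T ∩ RLS.PP w y = T ∩ RLS.PP z y := by
          ext p
          rw [mem_inter, mem_inter, PW_mem w y p hy0, PW_mem z y p hy0]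
          constructor
          · rintro ⟨hp1, hp2, hp3, hp4⟩
            refine ⟨hp1, hp2, ?_, hp4⟩
            exact not_le.1 (hf (mem_inter.2 ⟨hp1, (PW_mem w y p hy0).2 ⟨hp2, hp3, hp4⟩⟩))
          · rintro ⟨hp1, hp2, hp3, hp4⟩
            exact ⟨hp1, hp2, by linarith, hp4⟩
        rw [h5, h2.1 (T ∩ RLS.PP z y), ← h6]
        have h7 : (0 : ℝ) ≤ ((T ∩ RLS.PP w y).card.choose 3 : ℝ) := Nat.cast_nonneg _
        have h8 : 1 ≤ Sg (RLS.lam true L') ∅ * Sg (RLS.lam true L') ∅ := by nlinarith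
        have h9 : ((T ∩ RLS.PP w y).card.choose 3 : ℝ) ≤
            Sg (RLS.lam true L') ∅ * Sg (RLS.lam true L') ∅ *
              ((T ∩ RLS.PP w y).card.choose 3 : ℝ) := by
          have := mul_le_mul_of_nonneg_right h8 h7
          linarith
        linarith
      · rw [if_neg hf, add_zero] at h3
        linarith
    have h10 := mul_nonneg hc hbr
    have h11 : FF pr ζ e ^ 2 * Sg l₀ (T ∩ RLS.PP 1 w) * Sg (lM L z) (T ∩ RLS.PP w y) +
        FF pr ζ e ^ 2 * Sg l₀ (T ∩ RLS.PP 1 w) *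
          (Sg (RLS.lam true L') ∅ * Sg (RLS.lam true L') (T ∩ RLS.PP w v) *
            Sg c3 (T ∩ RLS.PP z y)) / 2 =
        FF pr ζ e ^ 2 * Sg l₀ (T ∩ RLS.PP 1 w) * (Sg (lM L z) (T ∩ RLS.PP w y) +
        (Sg (RLS.lam true L') ∅ * Sg (RLS.lam true L') (T ∩ RLS.PP w v) *
          Sg c3 (T ∩ RLS.PP z y)) / 2) := by ring
    rw [h11]
    exact h10
  · intro he
    have hT : TS pr m e = ∅ := PW_ts pr m e fun p => (he p).1
    have hT' : TS pr m' e = ∅ := PW_ts pr m' e fun p => (he p).2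
    unfold XA SU
    rw [hT, hT', empty_union, empty_inter, empty_inter, PW_sg_empty, PW_sg_empty, hl, hM1,
      mul_one, mul_one]

end Pool.Agent.MK
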